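import Mathlib

/-!
# A greedy choice of vertices

For a set `E` of vertices of positive degree there is a set `S` with `|S| ≤ 3 ∑ 1/d(v)`, the sum over `E`,
such that every nonempty subset `U` of `E` without neighbours in `S` has more than `3 |U|` neighbours.
-/

set_option autoImplicit false

namespace Pool.Agent.Lptd

open Finset Classical

variable {V : Type*} [Fintype V] (G : SimpleGraph V)

/-- The sum of `1 / d(v)` over the vertices of `E` without neighbour in `S`. -/
noncomputable def Phi (E S : Finset V) : ℝ :=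
  ∑ v ∈ E.filter (fun v => ∀ w ∈ S, ¬ G.Adj v w), 1 / (G.degree v : ℝ)

/-- The neighbours of the elements of `U`. -/
noncomputable def Nb (U : Finset V) : Finset V := univ.filter (fun w => ∃ u ∈ U, G.Adj u w)

lemma Phi_nonneg (E S : Finset V) : 0 ≤ Phi G E S :=
  Finset.sum_nonneg fun _ _ => by positivity

/-- Some neighbour of `U` sees a third of the weight. -/
lemma exists_heavy (U : Finset V) (hG : ∀ v ∈ U, 0 < G.degree v) (hU : U.Nonempty)
    (h3 : (Nb G U).card ≤ 3 * U.card) :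
    ∃ w, (∃ u ∈ U, G.Adj u w) ∧ 1 / 3 ≤ ∑ u ∈ U.filter (fun u => G.Adj u w), 1 / (G.degree u : ℝ) := by
  by_contra hcon
  push Not at hcon
  have h1 : ∑ w ∈ Nb G U, ∑ u ∈ U.filter (fun u => G.Adj u w), 1 / (G.degree u : ℝ) = U.card := by
    have : ∀ w ∈ Nb G U, ∑ u ∈ U.filter (fun u => G.Adj u w), 1 / (G.degree u : ℝ) =
        ∑ u ∈ U, if G.Adj u w then 1 / (G.degree u : ℝ) else 0 := by
      intro w _
      rw [Finset.sum_filter]
    rw [Finset.sum_congr rfl this, Finset.sum_comm]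
    have : ∀ u ∈ U, ∑ w ∈ Nb G U, (if G.Adj u w then 1 / (G.degree u : ℝ) else 0) = 1 := by
      intro u hu
      rw [← Finset.sum_filter, Finset.sum_const]
      have e : (Nb G U).filter (fun w => G.Adj u w) = G.neighborFinset u := by
        ext w
        simp only [Nb, mem_filter, mem_univ, true_and, SimpleGraph.mem_neighborFinset]
        exact ⟨fun h => h.2, fun h => ⟨⟨u, hu, h⟩, h⟩⟩
      rw [e, SimpleGraph.card_neighborFinset_eq_degree]
      have : (0 : ℝ) < G.degree u := by exact_mod_cast hG u hu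
      rw [nsmul_eq_mul]
      field_simp
    rw [Finset.sum_congr rfl this]
    simp
  have hne : (Nb G U).Nonempty := by
    obtain ⟨u, hu⟩ := hU
    have := hG u hu
    rw [← SimpleGraph.card_neighborFinset_eq_degree, Finset.card_pos] at this
    obtain ⟨w, hw⟩ := this
    exact ⟨w, by simpa [Nb] using ⟨u, hu, by simpa using hw⟩⟩
  have h2 : ∑ w ∈ Nb G U, ∑ u ∈ U.filter (fun u => G.Adj u w), 1 / (G.degree u : ℝ) <
      ∑ w ∈ Nb G U, (1 / 3 : ℝ) := by
    refine Finset.sum_lt_sum_of_nonempty hne ?_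
    intro w hw
    simp only [Nb, mem_filter, mem_univ, true_and] at hw
    exact hcon w hw
  rw [h1, Finset.sum_const, nsmul_eq_mul] at h2
  have h4 : ((Nb G U).card : ℝ) ≤ 3 * U.card := by exact_mod_cast h3
  linarith

lemma Phi_insert (E S U : Finset V) (w : V) (hUE : U ⊆ E) (hU : ∀ u ∈ U, ∀ w ∈ S, ¬ G.Adj u w)
    (hw : 1 / 3 ≤ ∑ u ∈ U.filter (fun u => G.Adj u w), 1 / (G.degree u : ℝ)) :
    Phi G E (insert w S) ≤ Phi G E S - 1 / 3 := by
  have hsub : U.filter (fun u => G.Adj u w) ⊆ E.filter (fun v => ∀ w ∈ S, ¬ G.Adj v w) := by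
    intro u hu
    simp only [mem_filter] at hu ⊢
    exact ⟨hUE hu.1, hU u hu.1⟩
  have h1 : E.filter (fun v => ∀ x ∈ insert w S, ¬ G.Adj v x) ⊆
      (E.filter (fun v => ∀ w ∈ S, ¬ G.Adj v w)) \ U.filter (fun u => G.Adj u w) := by
    intro v hv
    simp only [mem_filter, mem_sdiff, mem_insert, forall_eq_or_imp,
      not_and] at hv ⊢
    exact ⟨⟨hv.1, hv.2.2⟩, fun _ => hv.2.1⟩
  have h2 := Finset.sum_sdiff (f := fun v => 1 / (G.degree v : ℝ)) hsub
  have h3 : Phi G E (insert w S) ≤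
      ∑ v ∈ (E.filter (fun v => ∀ w ∈ S, ¬ G.Adj v w)) \ U.filter (fun u => G.Adj u w),
        1 / (G.degree v : ℝ) :=
    Finset.sum_le_sum_of_subset_of_nonneg h1 fun _ _ _ => by positivity
  unfold Phi at *
  linarith

/-- The greedy set. -/
theorem greedy (E : Finset V) (hG : ∀ v ∈ E, 0 < G.degree v) :
    ∃ S : Finset V, (S.card : ℝ) ≤ 3 * ∑ v ∈ E, 1 / (G.degree v : ℝ) ∧
      ∀ U : Finset V, U ⊆ E → U.Nonempty → (∀ u ∈ U, ∀ w ∈ S, ¬ G.Adj u w) →
        3 * U.card < (Nb G U).card := by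
  have hfin : (univ.filter (fun S : Finset V =>
      (S.card : ℝ) + 3 * Phi G E S ≤ 3 * Phi G E ∅)).Nonempty :=
    ⟨∅, by simp⟩
  obtain ⟨S, hS, hmax⟩ := Finset.exists_max_image _ (fun S : Finset V => S.card) hfin
  simp only [mem_filter, mem_univ, true_and] at hS hmax
  have h0 : Phi G E ∅ = ∑ v ∈ E, 1 / (G.degree v : ℝ) := by simp [Phi]
  refine ⟨S, ?_, ?_⟩
  · have := Phi_nonneg G E S
    rw [← h0]
    linarith
  · intro U hUE hU hUS
    by_contra hcon
    push Not at hcon
    obtain ⟨w, ⟨u, hu, huw⟩, hw⟩ := exists_heavy G U (fun v hv => hG v (hUE hv)) hU hcon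
    have hwS : w ∉ S := fun h => hUS u hu w h huw
    have h1 := Phi_insert G E S U w hUE hUS hw
    have h2 : ((insert w S).card : ℝ) = S.card + 1 := by
      rw [Finset.card_insert_of_notMem hwS]
      push_cast
      ring
    have := hmax (insert w S) (by rw [h2]; linarith)
    rw [Finset.card_insert_of_notMem hwS] at this
    omega

end Pool.Agent.Lptd
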