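import Pool.Agent.Lptd.Posa

/-!
# Hanging a clique on every vertex

`hang H m` is the graph obtained from `H` by hanging a clique with `m + 1` vertices on every vertex.
A longest path of `H` extends to a longest path of `hang H m`.
-/

set_option autoImplicit false

namespace Pool.Agent.Lptd

variable {V : Type*} (H : SimpleGraph V) (m : ℕ)

/-- A clique with `m + 1` vertices hung on every vertex `v`, which becomes `(v, 0)`. -/
def hang : SimpleGraph (V × Fin (m + 1)) where
  Adj x y := (x.1 = y.1 ∧ x.2 ≠ y.2) ∨ (x.2 = 0 ∧ y.2 = 0 ∧ H.Adj x.1 y.1)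
  symm := ⟨by
    rintro x y (⟨h1, h2⟩ | ⟨h1, h2, h3⟩)
    · exact Or.inl ⟨h1.symm, h2.symm⟩
    · exact Or.inr ⟨h2, h1, h3.symm⟩⟩
  loopless := ⟨by
    rintro x (⟨_, h2⟩ | ⟨_, _, h3⟩)
    · exact h2 rfl
    · exact H.loopless.irrefl _ h3⟩

variable {H m}

lemma hang_fiber {x y : V × Fin (m + 1)} (h : (hang H m).Adj x y) (hx : x.2 ≠ 0 ∨ y.2 ≠ 0) :
    x.1 = y.1 := by
  rcases h with ⟨h1, _⟩ | ⟨h1, h2, _⟩
  · exact h1
  · rcases hx with h | h
    · exact absurd h1 h
    · exact absurd h2 h

/-- A stretch whose interior vertices are no roots lies in one fibre. -/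
lemma stretch {k : ℕ} {f : ℕ → V × Fin (m + 1)} (hf : PathOn (hang H m) k f) (i : ℕ) :
    ∀ d, i + d ≤ k → (∀ t < d, (f (i + t)).2 ≠ 0 ∨ (f (i + t + 1)).2 ≠ 0) →
      ∀ t ≤ d, (f (i + t)).1 = (f i).1 := by
  intro d hd h t ht
  induction t with
  | zero => rfl
  | succ t ih =>
    have h1 := hang_fiber (hf.2 (i + t) (by omega)) (h t (by omega))
    rw [← ih (by omega), h1]
    rfl

lemma roots_interval {k : ℕ} {f : ℕ → V × Fin (m + 1)} (hf : PathOn (hang H m) k f) :
    ∀ d i, i + d ≤ k → (f i).2 = 0 → (f (i + d)).2 = 0 → ∀ t ≤ d, (f (i + t)).2 = 0 := by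
  intro d
  induction d with
  | zero =>
    intro i _ h0 _ t ht
    have : t = 0 := by omega
    subst this
    exact h0
  | succ d ih =>
    intro i hid h0 h1 t ht
    by_cases hr : (f (i + 1)).2 = 0
    · rcases Nat.eq_zero_or_pos t with rfl | htp
      · exact h0
      · have := ih (i + 1) (by omega) hr (by rw [show i + 1 + d = i + (d + 1) by omega]; exact h1)
          (t - 1) (by omega)
        rw [show i + 1 + (t - 1) = i + t by omega] at this
        exact this
    · exfalso
      have key : ∀ s, s ≤ d → (f (i + 1 + s)).2 ≠ 0 ∧ (f (i + 1 + s)).1 = (f i).1 := by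
        intro s
        induction s with
        | zero =>
          intro _
          exact ⟨hr, (hang_fiber (hf.2 i (by omega)) (Or.inr hr)).symm⟩
        | succ s ihs =>
          intro hs
          obtain ⟨h2, h3⟩ := ihs (by omega)
          have h4 := hang_fiber (hf.2 (i + 1 + s) (by omega)) (Or.inl h2)
          have h5 : (f (i + 1 + (s + 1))).1 = (f i).1 := by
            rw [← h3, h4]
            rfl
          refine ⟨fun h6 => ?_, h5⟩
          have : f (i + 1 + (s + 1)) = f i := Prod.ext h5 (by rw [h6, h0])
          have := hf.1 _ _ (by omega) (by omega) this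
          omega
      have := (key d le_rfl).1
      rw [show i + 1 + d = i + (d + 1) by omega] at this
      exact this h1

/-- Injective stretches in a fibre are short. -/
lemma fiber_short {k : ℕ} {f : ℕ → V × Fin (m + 1)} (hf : PathOn (hang H m) k f) (i d : ℕ)
    (hd : i + d ≤ k) (h : ∀ t ≤ d, (f (i + t)).1 = (f i).1) : d ≤ m := by
  by_contra hcon
  have hcard : Fintype.card (Fin (m + 1)) < Fintype.card (Fin (d + 1)) := by simp; omega
  obtain ⟨s, t, hst, he⟩ := Fintype.exists_ne_map_eq_of_card_lt
    (fun t : Fin (d + 1) => (f (i + t)).2) hcard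
  apply hst
  have hs := s.2
  have ht := t.2
  have : f (i + s) = f (i + t) := Prod.ext
    ((h s (by omega)).trans (h t (by omega)).symm) he
  have := hf.1 _ _ (by omega) (by omega) this
  exact Fin.ext (by omega)

/-- A path of `hang H m` has length at most `2 m + L` if the paths of `H` have length at most `L`. -/
lemma hang_length {L : ℕ} (hL : ∀ k f, PathOn H k f → k ≤ L) {k : ℕ} {f : ℕ → V × Fin (m + 1)}
    (hf : PathOn (hang H m) k f) : k ≤ 2 * m + L := by
  classical
  by_cases hex : ∃ i, i ≤ k ∧ (f i).2 = 0
  · -- first root
    let i0 := Nat.find hex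
    obtain ⟨h0k, h0r⟩ : i0 ≤ k ∧ (f i0).2 = 0 := Nat.find_spec hex
    have h0m : ∀ i < i0, (f i).2 ≠ 0 := by
      intro i hi h
      exact Nat.find_min hex hi ⟨by omega, h⟩
    have hex' : ∃ j, j ≤ k ∧ (f (k - j)).2 = 0 := ⟨k - i0, by omega, by
      rw [show k - (k - i0) = i0 by omega]; exact h0r⟩
    let j1 := Nat.find hex'
    obtain ⟨h1k, h1r⟩ : j1 ≤ k ∧ (f (k - j1)).2 = 0 := Nat.find_spec hex'
    have h1m : ∀ j < j1, (f (k - j)).2 ≠ 0 := by
      intro j hj h
      exact Nat.find_min hex' hj ⟨by omega, h⟩
    have h01 : i0 ≤ k - j1 := by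
      by_contra hcon
      exact h0m (k - j1) (by omega) h1r
    -- prefix
    have hA : i0 ≤ m := by
      refine fiber_short hf 0 i0 (by omega) ?_
      refine stretch hf 0 i0 (by omega) ?_
      intro t ht
      left
      rw [Nat.zero_add]
      exact h0m t ht
    -- suffix
    have hB : j1 ≤ m := by
      refine fiber_short hf (k - j1) j1 (by omega) ?_
      refine stretch hf (k - j1) j1 (by omega) ?_
      intro t ht
      right
      have := h1m (j1 - t - 1) (by omega)
      rw [show k - (j1 - t - 1) = k - j1 + t + 1 by omega] at this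
      exact this
    -- middle
    have hC : k - j1 - i0 ≤ L := by
      have hroot := roots_interval hf (k - j1 - i0) i0 (by omega) h0r
        (by rw [show i0 + (k - j1 - i0) = k - j1 by omega]; exact h1r)
      refine hL (k - j1 - i0) (fun t => (f (i0 + t)).1) ⟨?_, ?_⟩
      · intro a b ha hb hab
        have : f (i0 + a) = f (i0 + b) := Prod.ext hab (by rw [hroot a ha, hroot b hb])
        have := hf.1 _ _ (by omega) (by omega) this
        omega
      · intro t ht
        rcases hf.2 (i0 + t) (by omega) with ⟨_, h2⟩ | ⟨_, _, h3⟩
        · exfalso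
          apply h2
          rw [hroot t (by omega)]
          exact (hroot (t + 1) (by omega)).symm
        · exact h3
    omega
  · push Not at hex
    have : k ≤ m := by
      refine fiber_short hf 0 k (by omega) ?_
      refine stretch hf 0 k (by omega) ?_
      intro t ht
      left
      rw [Nat.zero_add]
      exact hex t (by omega)
    omega

/-- The extended path. -/
def extend (m L : ℕ) (p : ℕ → V) : ℕ → V × Fin (m + 1) := fun i =>
  if i < m then (p 0, Fin.ofNat (m + 1) (m - i)) else
    if i ≤ m + L then (p (i - m), 0) else (p L, Fin.ofNat (m + 1) (i - m - L))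

lemma extend_path {L : ℕ} (hLpos : 1 ≤ L) {p : ℕ → V} (hp : PathOn H L p) :
    PathOn (hang H m) (2 * m + L) (extend m L p) := by
  have hne : p 0 ≠ p L := by
    intro h
    have := hp.1 0 L (by omega) le_rfl h
    omega
  have hval : ∀ j, 1 ≤ j → j ≤ m → (Fin.ofNat (m + 1) j : Fin (m + 1)).val = j := by
    intro j _ h
    simp [Fin.ofNat, Nat.mod_eq_of_lt (Nat.lt_succ_of_le h)]
  have hnz : ∀ j, 1 ≤ j → j ≤ m → (Fin.ofNat (m + 1) j : Fin (m + 1)) ≠ 0 := by
    intro j h1 h2 h
    have := congrArg Fin.val h
    rw [hval j h1 h2] at this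
    simp at this
    omega
  refine ⟨?_, ?_⟩
  · intro a b ha hb hab
    simp only [extend] at hab
    split_ifs at hab with h1 h2 h3 h2 h3 h4 h3 h4 <;> simp only [Prod.mk.injEq] at hab
    · have := congrArg Fin.val hab.2
      rw [hval _ (by omega) (by omega), hval _ (by omega) (by omega)] at this
      omega
    · exact absurd hab.2 (hnz _ (by omega) (by omega))
    · exact absurd hab.1 hne
    · exact absurd hab.2.symm (hnz _ (by omega) (by omega))
    · have := hp.1 _ _ (by omega) (by omega) hab.1
      omega
    · exact absurd hab.2.symm (hnz _ (by omega) (by omega))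
    · exact absurd hab.1.symm hne
    · exact absurd hab.2 (hnz _ (by omega) (by omega))
    · have := congrArg Fin.val hab.2
      rw [hval _ (by omega) (by omega), hval _ (by omega) (by omega)] at this
      omega
  · intro i hi
    rcases Nat.lt_or_ge (i + 1) m with h | h
    · -- both in the first clique
      have e1 : extend m L p i = (p 0, Fin.ofNat (m + 1) (m - i)) := by
        simp only [extend]; rw [if_pos (by omega)]
      have e2 : extend m L p (i + 1) = (p 0, Fin.ofNat (m + 1) (m - (i + 1))) := by
        simp only [extend]; rw [if_pos (by omega)]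
      rw [e1, e2]
      left
      refine ⟨rfl, fun h' => ?_⟩
      have := congrArg Fin.val h'
      simp only at this
      rw [hval _ (by omega) (by omega), hval _ (by omega) (by omega)] at this
      omega
    · rcases Nat.lt_or_ge i m with h' | h'
      · -- `i + 1 = m`
        have e1 : extend m L p i = (p 0, Fin.ofNat (m + 1) (m - i)) := by
          simp only [extend]; rw [if_pos (by omega)]
        have e2 : extend m L p (i + 1) = (p 0, 0) := by
          simp only [extend]; rw [if_neg (by omega), if_pos (by omega)]
          rw [show i + 1 - m = 0 by omega]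
        rw [e1, e2]
        left
        exact ⟨rfl, hnz _ (by omega) (by omega)⟩
      · rcases Nat.lt_or_ge i (m + L) with h2 | h2
        · have e1 : extend m L p i = (p (i - m), 0) := by
            simp only [extend]; rw [if_neg (by omega), if_pos (by omega)]
          have e2 : extend m L p (i + 1) = (p (i - m + 1), 0) := by
            simp only [extend]; rw [if_neg (by omega), if_pos (by omega)]
            rw [show i + 1 - m = i - m + 1 by omega]
          rw [e1, e2]
          right
          exact ⟨rfl, rfl, hp.2 _ (by omega)⟩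
        · rcases Nat.lt_or_ge (m + L) i with h3 | h3
          · have e1 : extend m L p i = (p L, Fin.ofNat (m + 1) (i - m - L)) := by
              simp only [extend]; rw [if_neg (by omega), if_neg (by omega)]
            have e2 : extend m L p (i + 1) = (p L, Fin.ofNat (m + 1) (i + 1 - m - L)) := by
              simp only [extend]; rw [if_neg (by omega), if_neg (by omega)]
            rw [e1, e2]
            left
            refine ⟨rfl, fun h' => ?_⟩
            have := congrArg Fin.val h'
            simp only at this
            rw [hval _ (by omega) (by omega), hval _ (by omega) (by omega)] at this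
            omega
          · have hi' : i = m + L := by omega
            have e1 : extend m L p i = (p L, 0) := by
              simp only [extend]; rw [if_neg (by omega), if_pos (by omega)]
              rw [show i - m = L by omega]
            have e2 : extend m L p (i + 1) = (p L, Fin.ofNat (m + 1) (i + 1 - m - L)) := by
              simp only [extend]; rw [if_neg (by omega), if_neg (by omega)]
            rw [e1, e2]
            left
            exact ⟨rfl, fun h => hnz _ (by omega) (by omega) h.symm⟩

lemma extend_fst {L : ℕ} (p : ℕ → V) (i : ℕ) :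
    ∃ j ≤ L, (extend m L p i).1 = p j := by
  simp only [extend]
  split_ifs with h1 h2
  · exact ⟨0, by omega, rfl⟩
  · exact ⟨i - m, by omega, rfl⟩
  · exact ⟨L, le_rfl, rfl⟩

end Pool.Agent.Lptd
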