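import Pool.Agent.Lptd.Posa
import Pool.Agent.Lptd.Greedy

/-!
# The transversal
-/

set_option autoImplicit false

namespace Pool.Agent.Lptd

open Finset Classical

variable {V : Type*} [Fintype V] (G : SimpleGraph V)

omit [Fintype V] in
lemma pathOn_walk {m : ℕ} {f : ℕ → V} (hf : PathOn G m f) :
    ∃ q : G.Walk (f 0) (f m), q.IsPath ∧ q.length = m ∧
      q.support = (List.range (m + 1)).map f := by
  have aux : ∀ k ≤ m, ∃ q : G.Walk (f 0) (f k), q.length = k ∧
      q.support = (List.range (k + 1)).map f := by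
    intro k
    induction k with
    | zero => intro _; exact ⟨SimpleGraph.Walk.nil, rfl, by simp⟩
    | succ k ih =>
      intro hk
      obtain ⟨q, h1, h2⟩ := ih (by omega)
      refine ⟨q.concat (hf.2 k (by omega)), by simp [h1], ?_⟩
      rw [SimpleGraph.Walk.support_concat, h2, List.range_succ (n := k + 1), List.map_append]
      simp
  obtain ⟨q, h1, h2⟩ := aux m le_rfl
  refine ⟨q, ?_, h1, h2⟩
  rw [SimpleGraph.Walk.isPath_def, h2]
  refine List.Nodup.map_on ?_ (List.nodup_range)
  intro a ha b hb hab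
  rw [List.mem_range] at ha hb
  exact hf.1 a b (by omega) (by omega) hab

omit [Fintype V] in
lemma walk_pathOn {u v : V} {p : G.Walk u v} (hp : p.IsPath) : PathOn G p.length p.getVert := by
  refine ⟨?_, fun i hi => p.adj_getVert_succ hi⟩
  intro a b ha hb hab
  exact hp.getVert_injOn (by simpa using ha) (by simpa using hb) hab

/-- `v` is an end of a longest path. -/
def IsLongestEnd (G : SimpleGraph V) (v : V) : Prop :=
  ∃ (u : V) (p : G.Walk u v), p.IsPath ∧
    ∀ (a b : V) (q : G.Walk a b), q.IsPath → q.length ≤ p.length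

/-- A set as in `greedy` meets every longest path. -/
theorem meets (E S : Finset V) (hE : ∀ v, IsLongestEnd G v → v ∈ E)
    (hS : ∀ U : Finset V, U ⊆ E → U.Nonempty → (∀ u ∈ U, ∀ w ∈ S, ¬ G.Adj u w) →
        3 * U.card < (Nb G U).card)
    {u v : V} (p : G.Walk u v) (hp : p.IsPath)
    (hmax : ∀ (a b : V) (q : G.Walk a b), q.IsPath → q.length ≤ p.length) :
    ∃ x ∈ S, x ∈ p.support := by
  by_contra hcon
  push Not at hcon
  set m := p.length with hm
  set f := p.getVert with hfdef
  have hlong : Longest G m f := by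
    refine ⟨walk_pathOn G hp, ?_⟩
    intro m' f' h
    obtain ⟨q, hq, hl, _⟩ := pathOn_walk G h
    have := hmax _ _ q hq
    omega
  have hfS : ∀ k, f k ∉ S := fun k h => hcon _ h (p.getVert_mem_support k)
  let U : Finset V := univ.filter (fun x => Ends G m f x)
  have hUmem : ∀ x, x ∈ U ↔ Ends G m f x := by simp [U]
  have hUE : U ⊆ E := by
    intro x hx
    obtain ⟨g, hg, rfl⟩ := (hUmem x).1 hx
    obtain ⟨q, hq, hl, _⟩ := pathOn_walk G (rot_path hlong.1 hg)
    exact hE _ ⟨_, q, hq, fun a b r hr => by rw [hl]; exact hmax a b r hr⟩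
  have hUne : U.Nonempty := ⟨f m, (hUmem _).2 ⟨f, Rot.base, rfl⟩⟩
  have hUS : ∀ u ∈ U, ∀ w ∈ S, ¬ G.Adj u w := by
    intro x hx w hw hadj
    obtain ⟨k, _, hk⟩ := ends_nbr hlong ((hUmem x).1 hx) hadj
    exact hfS k (hk ▸ hw)
  have h1 := hS U hUE hUne hUS
  -- successor and predecessor along `f`
  let sc : V → V := fun x => if h : ∃ i, i < m ∧ f i = x then f (h.choose + 1) else x
  let pr : V → V := fun x => if h : ∃ i, i < m ∧ f (i + 1) = x then f h.choose else x
  have hsc : ∀ i < m, sc (f i) = f (i + 1) := by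
    intro i hi
    have h : ∃ j, j < m ∧ f j = f i := ⟨i, hi, rfl⟩
    have e : sc (f i) = f (h.choose + 1) := dif_pos h
    have h2 := h.choose_spec
    rw [e, hlong.1.1 _ _ (by omega) (by omega) h2.2]
  have hpr : ∀ i < m, pr (f (i + 1)) = f i := by
    intro i hi
    have h : ∃ j, j < m ∧ f (j + 1) = f (i + 1) := ⟨i, hi, rfl⟩
    have e : pr (f (i + 1)) = f h.choose := dif_pos h
    have h2 := h.choose_spec
    have := hlong.1.1 _ _ (by omega) (by omega) h2.2
    rw [e]
    congr 1
    omega
  have hsub : Nb G U ⊆ U ∪ (U.image sc ∪ U.image pr) := by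
    intro y hy
    simp only [Nb, mem_filter, mem_univ, true_and] at hy
    obtain ⟨x, hx, hxy⟩ := hy
    simp only [mem_union, mem_image]
    rcases posa hlong ((hUmem x).1 hx) hxy with h | ⟨i, hi, ⟨h, h'⟩ | ⟨h, h'⟩⟩
    · exact Or.inl ((hUmem y).2 h)
    · right; right
      exact ⟨f (i + 1), (hUmem _).2 h', by rw [hpr i hi, h]⟩
    · right; left
      exact ⟨f i, (hUmem _).2 h', by rw [hsc i hi, h]⟩
  have h2 := Finset.card_le_card hsub
  have h3 := Finset.card_union_le U (U.image sc ∪ U.image pr)
  have h4 := Finset.card_union_le (U.image sc) (U.image pr)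
  have h5 := Finset.card_image_le (s := U) (f := sc)
  have h6 := Finset.card_image_le (s := U) (f := pr)
  omega

/-- If `G` has an edge, ends of longest paths are not isolated. -/
lemma end_degree {x y : V} (hxy : G.Adj x y) {v : V} (hv : IsLongestEnd G v) : 0 < G.degree v := by
  obtain ⟨u, p, hp, hmax⟩ := hv
  have h1 : 1 ≤ p.length := by
    refine hmax x y (SimpleGraph.Walk.cons hxy SimpleGraph.Walk.nil) ?_
    simp [SimpleGraph.Walk.isPath_def, hxy.ne]
  have h2 := p.adj_getVert_succ (i := p.length - 1) (by omega)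
  have h3 : p.length - 1 + 1 = p.length := by omega
  rw [h3, SimpleGraph.Walk.getVert_length] at h2
  rw [← SimpleGraph.card_neighborFinset_eq_degree, Finset.card_pos]
  exact ⟨_, by simpa using h2.symm⟩

/-- Every graph with an edge has a longest path transversal of at most
`3 ∑ 1 / d(v)` vertices, the sum over the ends of longest paths. -/
theorem exists_transversal {x y : V} (hxy : G.Adj x y) :
    ∃ S : Finset V, (S.card : ℝ) ≤
        3 * ∑ v ∈ univ.filter (fun v => IsLongestEnd G v), 1 / (G.degree v : ℝ) ∧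
      ∀ (u v : V) (p : G.Walk u v), p.IsPath →
        (∀ (a b : V) (q : G.Walk a b), q.IsPath → q.length ≤ p.length) →
          ∃ x ∈ S, x ∈ p.support := by
  obtain ⟨S, h1, h2⟩ := greedy G (univ.filter (fun v => IsLongestEnd G v))
    (fun v hv => end_degree G hxy (by simpa using hv))
  exact ⟨S, h1, fun u v p hp hmax => meets G _ S (by simp) h2 p hp hmax⟩

end Pool.Agent.Lptd
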