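import Mathlib

/-!
# Posa rotations of a longest path

A path with `m + 1` vertices is a function `f : ℕ → V`, injective on `{0, .., m}`, with consecutive values
adjacent.  The ends which are reached from a longest path by rotations with the first vertex fixed
have all their neighbours among themselves and their neighbours on the path.
-/

set_option autoImplicit false

namespace Pool.Agent.Lptd

variable {V : Type*} {G : SimpleGraph V}

/-- `f 0, .., f m` is a path of `G`. -/
def PathOn (G : SimpleGraph V) (m : ℕ) (f : ℕ → V) : Prop :=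
  (∀ i j, i ≤ m → j ≤ m → f i = f j → i = j) ∧ ∀ i, i < m → G.Adj (f i) (f (i + 1))

/-- The rotation at the index `j`. -/
def rotate (m j : ℕ) (g : ℕ → V) : ℕ → V := fun i => if i ≤ j then g i else g (m + j + 1 - i)

/-- The paths obtained from `f` by rotations with the vertex `f 0` fixed. -/
inductive Rot (G : SimpleGraph V) (m : ℕ) (f : ℕ → V) : (ℕ → V) → Prop
  | base : Rot G m f f
  | step (g : ℕ → V) (j : ℕ) : Rot G m f g → j < m → G.Adj (g j) (g m) → Rot G m f (rotate m j g)

/-- The ends reached by rotations. -/
def Ends (G : SimpleGraph V) (m : ℕ) (f : ℕ → V) (u : V) : Prop := ∃ g, Rot G m f g ∧ g m = u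

lemma rotate_path {m j : ℕ} {g : ℕ → V} (hg : PathOn G m g) (hj : j < m)
    (hadj : G.Adj (g j) (g m)) : PathOn G m (rotate m j g) := by
  obtain ⟨hinj, hc⟩ := hg
  refine ⟨?_, ?_⟩
  · intro a b ha hb hab
    simp only [rotate] at hab
    split_ifs at hab with h1 h2 h2
    · exact hinj a b ha hb hab
    · have := hinj _ _ ha (by omega) hab
      omega
    · have := hinj _ _ (by omega) hb hab
      omega
    · have := hinj _ _ (by omega) (by omega) hab
      omega
  · intro i hi
    simp only [rotate]
    split_ifs with h1 h2 h2
    · exact hc i hi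
    · have : i = j := by omega
      subst this
      have h3 : m + i + 1 - (i + 1) = m := by omega
      rw [h3]
      exact hadj
    · omega
    · have h3 : m + j + 1 - i = (m + j + 1 - (i + 1)) + 1 := by omega
      rw [h3]
      exact (hc _ (by omega)).symm

lemma rot_path {m : ℕ} {f g : ℕ → V} (hf : PathOn G m f) (h : Rot G m f g) : PathOn G m g := by
  induction h with
  | base => exact hf
  | step g j _ hj hadj ih => exact rotate_path ih hj hadj

lemma rot_zero {m : ℕ} {f g : ℕ → V} (h : Rot G m f g) : g 0 = f 0 := by
  induction h with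
  | base => rfl
  | step g j _ _ _ ih => simp [rotate, ih]

lemma rot_mem {m : ℕ} {f g : ℕ → V} (h : Rot G m f g) (i : ℕ) (hi : i ≤ m) :
    ∃ k ≤ m, g i = f k := by
  induction h generalizing i with
  | base => exact ⟨i, hi, rfl⟩
  | step g j _ hj _ ih =>
    simp only [rotate]
    split_ifs with h1
    · exact ih i hi
    · exact ih _ (by omega)

/-- Edges of `f` are edges of `g`, unless one of the vertices has become an end. -/
lemma rot_edge {m : ℕ} {f g : ℕ → V} (h : Rot G m f g) (i : ℕ) (hi : i < m) :
    (∃ k < m, (g k = f i ∧ g (k + 1) = f (i + 1)) ∨ (g k = f (i + 1) ∧ g (k + 1) = f i)) ∨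
      Ends G m f (f i) ∨ Ends G m f (f (i + 1)) := by
  induction h with
  | base => exact Or.inl ⟨i, hi, Or.inl ⟨rfl, rfl⟩⟩
  | step g j hg hj hadj ih =>
    rcases ih with ⟨k, hk, hkk⟩ | h
    · have hend : Ends G m f (g (j + 1)) := by
        refine ⟨_, Rot.step g j hg hj hadj, ?_⟩
        simp only [rotate]
        rw [if_neg (by omega)]
        congr 1
        omega
      rcases Nat.lt_trichotomy k j with h1 | h1 | h1
      · left
        refine ⟨k, hk, ?_⟩
        simp only [rotate]
        rw [if_pos (by omega), if_pos (by omega)]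
        exact hkk
      · subst h1
        right
        rcases hkk with ⟨_, h2⟩ | ⟨_, h2⟩
        · right
          rw [← h2]
          exact hend
        · left
          rw [← h2]
          exact hend
      · left
        refine ⟨m + j - k, by omega, ?_⟩
        simp only [rotate]
        rw [if_neg (by omega), if_neg (by omega)]
        have e1 : m + j + 1 - (m + j - k) = k + 1 := by omega
        have e2 : m + j + 1 - (m + j - k + 1) = k := by omega
        rw [e1, e2]
        rcases hkk with ⟨h2, h3⟩ | ⟨h2, h3⟩
        · exact Or.inr ⟨h3, h2⟩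
        · exact Or.inl ⟨h3, h2⟩
    · exact Or.inr h

/-- A longest path. -/
def Longest (G : SimpleGraph V) (m : ℕ) (f : ℕ → V) : Prop :=
  PathOn G m f ∧ ∀ m' f', PathOn G m' f' → m' ≤ m

/-- Neighbours of ends are on the path. -/
lemma ends_nbr {m : ℕ} {f : ℕ → V} (hf : Longest G m f) {u y : V} (hu : Ends G m f u)
    (hy : G.Adj u y) : ∃ k ≤ m, y = f k := by
  obtain ⟨g, hg, rfl⟩ := hu
  have hp := rot_path hf.1 hg
  by_contra hcon
  have hny : ∀ i ≤ m, g i ≠ y := by
    intro i hi h
    obtain ⟨k, hk, h2⟩ := rot_mem hg i hi
    exact hcon ⟨k, hk, by rw [← h, h2]⟩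
  have : PathOn G (m + 1) (fun i => if i ≤ m then g i else y) := by
    refine ⟨?_, ?_⟩
    · intro a b ha hb hab
      dsimp only at hab
      split_ifs at hab with h1 h2 h2
      · exact hp.1 a b h1 h2 hab
      · exact absurd hab (hny a h1)
      · exact absurd hab.symm (hny b h2)
      · omega
    · intro i hi
      dsimp only
      split_ifs with h1 h2 h2
      · exact hp.2 i (by omega)
      · have : i = m := by omega
        subst this
        exact hy
      · omega
      · omega
  have := hf.2 _ _ this
  omega

/-- Posa's lemma: a neighbour of an end is an end or a neighbour on `f` of an end. -/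
lemma posa {m : ℕ} {f : ℕ → V} (hf : Longest G m f) {u y : V} (hu : Ends G m f u)
    (hy : G.Adj u y) :
    Ends G m f y ∨ ∃ i < m, (f i = y ∧ Ends G m f (f (i + 1))) ∨
      (f (i + 1) = y ∧ Ends G m f (f i)) := by
  by_contra hcon
  push Not at hcon
  obtain ⟨hyU, hyN⟩ := hcon
  obtain ⟨i, him, rfl⟩ := ends_nbr hf hu hy
  obtain ⟨g, hg, rfl⟩ := hu
  have hp := rot_path hf.1 hg
  -- position of `y` in `g`
  have hbase : Ends G m f (f m) := ⟨f, Rot.base, rfl⟩
  have hi : i < m := by
    rcases Nat.lt_or_ge i m with h | h
    · exact h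
    · have : i = m := by omega
      subst this
      exact absurd hbase hyU
  have key : ∀ k < m, g k = f i → Ends G m f (g (k + 1)) := by
    intro k hk hki
    refine ⟨_, Rot.step g k hg hk (by rw [hki]; exact hy.symm), ?_⟩
    simp only [rotate]
    rw [if_neg (by omega)]
    congr 1
    omega
  have hnext : ¬ Ends G m f (f (i + 1)) := (hyN i hi).1 rfl
  rcases rot_edge hg i hi with ⟨k, hk, hkk⟩ | h | h
  · rcases hkk with ⟨h1, h2⟩ | ⟨h1, h2⟩
    · exact hnext (h2 ▸ key k hk h1)
    · -- `g (k+1) = f i`, `g k = f (i+1)`
      rcases Nat.eq_zero_or_pos i with h0 | h0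
      · subst h0
        have := rot_zero hg
        rw [← h2] at this
        have := hp.1 0 (k + 1) (by omega) (by omega) this
        omega
      · have hi1 : i - 1 < m := by omega
        have hprev : ¬ Ends G m f (f (i - 1)) := by
          have := (hyN (i - 1) hi1).2
          rw [Nat.sub_add_cancel h0] at this
          exact this rfl
        have hsub : i - 1 + 1 = i := Nat.sub_add_cancel h0
        rcases rot_edge hg (i - 1) hi1 with ⟨k', hk', hkk'⟩ | h | h
        · rw [hsub] at hkk'
          rcases hkk' with ⟨h3, h4⟩ | ⟨h3, h4⟩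
          · have e : k' + 1 = k + 1 := hp.1 _ _ (by omega) (by omega) (h4.trans h2.symm)
            have e' : k' = k := by omega
            subst e'
            have := hf.1.1 (i - 1) (i + 1) (by omega) (by omega) (h3.symm.trans h1)
            omega
          · exact hprev (h4 ▸ key k' hk' h3)
        · exact hprev h
        · rw [hsub] at h
          exact hyU h
  · exact hyU h
  · exact hnext h

end Pool.Agent.Lptd
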