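import Pool.Agent.Lptd.Main
import Pool.Agent.Lptd.Hang

/-!
# Dense graphs are as hard as all graphs
-/

set_option autoImplicit false

namespace Pool.Agent.Lptd

open Finset Classical

variable {V : Type*}

lemma hang_connected {H : SimpleGraph V} (hH : H.Connected) (m : ℕ) : (hang H m).Connected := by
  have h0 : ∀ v i, (hang H m).Reachable (v, i) (v, 0) := by
    intro v i
    by_cases hi : i = 0
    · subst hi; exact SimpleGraph.Reachable.refl _
    · exact SimpleGraph.Adj.reachable (Or.inl ⟨rfl, hi⟩)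
  let φ : H →g hang H m := ⟨fun v => (v, 0), fun {a b} h => Or.inr ⟨rfl, rfl, h⟩⟩
  have h1 : ∀ v w, (hang H m).Reachable (v, 0) (w, 0) := by
    intro v w
    exact (hH.preconnected v w).map φ
  have := hH.nonempty
  refine { preconnected := ?_, nonempty := inferInstance }
  rintro ⟨v, i⟩ ⟨w, j⟩
  exact ((h0 v i).trans (h1 v w)).trans (h0 w j).symm

lemma hang_degree [Fintype V] (H : SimpleGraph V) (m : ℕ) (x : V × Fin (m + 1)) :
    m ≤ (hang H m).degree x := by
  have h1 : (univ.erase x.2).image (fun j => (x.1, j)) ⊆ (hang H m).neighborFinset x := by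
    intro y hy
    simp only [mem_image, mem_erase, mem_univ, and_true] at hy
    obtain ⟨j, hj, rfl⟩ := hy
    rw [SimpleGraph.mem_neighborFinset]
    exact Or.inl ⟨rfl, hj.symm⟩
  have h2 := Finset.card_le_card h1
  rw [Finset.card_image_of_injective _ (fun a b h => by simpa using h),
    Finset.card_erase_of_mem (mem_univ _), Finset.card_univ, Fintype.card_fin,
    SimpleGraph.card_neighborFinset_eq_degree] at h2
  simpa using h2

/-- `S` meets all longest paths, in terms of functions. -/
lemma exists_longest {W : Type*} (G : SimpleGraph W) [Nonempty W] (B : ℕ)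
    (hB : ∀ k f, PathOn G k f → k ≤ B) : ∃ k f, Longest G k f := by
  have h0 : ∃ f, PathOn G 0 f := by
    obtain ⟨w⟩ := ‹Nonempty W›
    exact ⟨fun _ => w, fun i j hi hj _ => by omega, fun i hi => by omega⟩
  let P : ℕ → Prop := fun k => ∃ f, PathOn G k f
  have hP : P (Nat.findGreatest P B) := Nat.findGreatest_spec (P := P) (m := 0) (by omega) h0
  obtain ⟨f, hf⟩ := hP
  refine ⟨_, f, hf, fun k' f' h' => ?_⟩
  exact Nat.le_findGreatest (hB _ _ h') ⟨f', h'⟩

/-- A transversal of `hang H m` projects to a transversal of `H`. -/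
theorem hang_transversal (H : SimpleGraph V) (m : ℕ) (S : Finset (V × Fin (m + 1)))
    (hH : H.Connected)
    (hS : ∀ k f, Longest (hang H m) k f → ∃ i ≤ k, f i ∈ S)
    (L : ℕ) (p : ℕ → V) (hp : Longest H L p) :
    ∃ j ≤ L, p j ∈ S.image Prod.fst := by
  have hbound := fun k f (hf : PathOn (hang H m) k f) => hang_length (L := L) hp.2 hf
  rcases Nat.eq_zero_or_pos L with rfl | hL
  · -- `H` has one vertex
    have : Nonempty (V × Fin (m + 1)) := ⟨(p 0, 0)⟩
    obtain ⟨k, f, hf⟩ := exists_longest (hang H m) _ hbound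
    obtain ⟨i, hi, hiS⟩ := hS k f hf
    refine ⟨0, le_rfl, ?_⟩
    have hall : ∀ v : V, v = p 0 := by
      intro v
      by_contra hne
      obtain ⟨w⟩ := hH.preconnected v (p 0)
      cases w with
      | nil => exact hne rfl
      | @cons _ w' _ h q =>
        have := hp.2 1 (fun i => if i = 0 then v else w') ⟨?_, ?_⟩
        · omega
        · intro a b ha hb hab
          dsimp only at hab
          split_ifs at hab with h1 h2 h2
          · omega
          · exact absurd hab h.ne
          · exact absurd hab.symm h.ne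
          · omega
        · intro a ha
          have : a = 0 := by omega
          subst this
          simpa using h
    rw [mem_image]
    exact ⟨f i, hiS, hall _⟩
  · obtain ⟨i, hi, hiS⟩ := hS (2 * m + L) (extend m L p)
      ⟨extend_path hL hp.1, fun k' f' h' => hbound k' f' h'⟩
    obtain ⟨j, hj, he⟩ := extend_fst (m := m) (L := L) p i
    exact ⟨j, hj, mem_image.2 ⟨_, hiS, he⟩⟩

/-- Walk version of `Longest`. -/
lemma longest_walk {G : SimpleGraph V} {k : ℕ} {f : ℕ → V} (hf : Longest G k f) :
    ∃ q : G.Walk (f 0) (f k), q.IsPath ∧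
      (∀ (a b : V) (r : G.Walk a b), r.IsPath → r.length ≤ q.length) ∧
        ∀ x ∈ q.support, ∃ i ≤ k, x = f i := by
  obtain ⟨q, hq, hl, hs⟩ := pathOn_walk G hf.1
  refine ⟨q, hq, fun a b r hr => ?_, fun x hx => ?_⟩
  · rw [hl]
    exact hf.2 _ _ (walk_pathOn G hr)
  · rw [hs, List.mem_map] at hx
    obtain ⟨i, hi, rfl⟩ := hx
    rw [List.mem_range] at hi
    exact ⟨i, by omega, rfl⟩

lemma walk_longest {G : SimpleGraph V} {u v : V} {p : G.Walk u v} (hp : p.IsPath)
    (hmax : ∀ (a b : V) (q : G.Walk a b), q.IsPath → q.length ≤ p.length) :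
    Longest G p.length p.getVert := by
  refine ⟨walk_pathOn G hp, fun m' f' h => ?_⟩
  obtain ⟨q, hq, hl, _⟩ := pathOn_walk G h
  have := hmax _ _ q hq
  omega

/-- Projection, in terms of walks. -/
theorem hang_walk (H : SimpleGraph V) (m : ℕ) (S : Finset (V × Fin (m + 1)))
    (hH : H.Connected)
    (hS : ∀ (u v : V × Fin (m + 1)) (p : (hang H m).Walk u v), p.IsPath →
      (∀ (a b : V × Fin (m + 1)) (q : (hang H m).Walk a b), q.IsPath → q.length ≤ p.length) →
        ∃ x ∈ S, x ∈ p.support)
    {u v : V} (p : H.Walk u v) (hp : p.IsPath)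
    (hmax : ∀ (a b : V) (q : H.Walk a b), q.IsPath → q.length ≤ p.length) :
    ∃ x ∈ S.image Prod.fst, x ∈ p.support := by
  obtain ⟨j, hj, hjS⟩ := hang_transversal H m S hH (fun k f hf => by
    obtain ⟨q, hq, hm, hs⟩ := longest_walk hf
    obtain ⟨x, hx, hxq⟩ := hS _ _ q hq hm
    obtain ⟨i, hi, rfl⟩ := hs x hxq
    exact ⟨i, hi, hx⟩) p.length p.getVert (walk_longest hp hmax)
  exact ⟨_, hjS, p.getVert_mem_support j⟩

end Pool.Agent.Lptd
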